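import Mathlib
import Pool.Agent.Helper86.LP.PrekopaLeindler

/-!
The slice inequality in the plane (Bonnesen's inequality for two bodies of given extents).
-/

open MeasureTheory Set
open scoped ENNReal

namespace Pool.Agent.Helper36.LB3

theorem lintegral_scale {f : ℝ → ℝ≥0∞} (hf : Measurable f) {a : ℝ} (ha : 0 < a) :
    ∫⁻ x, f x = ENNReal.ofReal a * ∫⁻ t, f (a * t) := by
  have h1 := Real.map_volume_mul_left ha.ne'
  have h2 : ∫⁻ t, f (a * t) = ∫⁻ x, f x ∂(Measure.map (a * ·) volume) := by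
    rw [lintegral_map hf (by fun_prop)]
  rw [h2, h1, lintegral_smul_measure, smul_eq_mul, ← mul_assoc, ← ENNReal.ofReal_mul ha.le,
    abs_of_pos (inv_pos.2 ha), mul_inv_cancel₀ ha.ne', ENNReal.ofReal_one, one_mul]

theorem volume_scale {S : Set (ℝ × ℝ)} (hS : MeasurableSet S) {a : ℝ} (ha : 0 < a) :
    volume S = ENNReal.ofReal a * ∫⁻ t, volume (Prod.mk (a * t) ⁻¹' S) := by
  rw [Measure.volume_eq_prod, Measure.prod_apply hS]
  exact lintegral_scale (measurable_measure_prodMk_left hS) ha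

/-- The slice inequality. -/
theorem slice_le {A B C : Set (ℝ × ℝ)} (hA : MeasurableSet A) (hB : MeasurableSet B)
    (hC : MeasurableSet C) {α β l m : ℝ} (hα : 0 < α) (hβ : 0 < β) (hl : 0 < l) (hm : 0 < m)
    (hA1 : ∀ p ∈ A, |p.1| ≤ α) (hB1 : ∀ p ∈ B, |p.1| ≤ β)
    (hAn : ∀ t : ℝ, |t| ≤ 1 → ∃ y, (α * t, y) ∈ A) (hBn : ∀ t : ℝ, |t| ≤ 1 → ∃ y, (β * t, y) ∈ B)
    (h : ∀ p ∈ A, ∀ q ∈ B, (l * p.1 + m * q.1, l * p.2 + m * q.2) ∈ C) :
    ENNReal.ofReal ((l * α + m * β) * l / α) * volume A +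
      ENNReal.ofReal ((l * α + m * β) * m / β) * volume B ≤ volume C := by
  have hγ : 0 < l * α + m * β := by positivity
  rw [volume_scale hA hα, volume_scale hB hβ, volume_scale hC hγ, ← mul_assoc, ← mul_assoc,
    ← ENNReal.ofReal_mul (by positivity), ← ENNReal.ofReal_mul (by positivity),
    div_mul_cancel₀ _ hα.ne', div_mul_cancel₀ _ hβ.ne', ENNReal.ofReal_mul hγ.le,
    ENNReal.ofReal_mul hγ.le, mul_assoc, mul_assoc, ← mul_add]
  refine mul_le_mul' le_rfl ?_
  have hmA : Measurable fun t : ℝ => volume (Prod.mk (α * t) ⁻¹' A) :=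
    (measurable_measure_prodMk_left hA).comp (measurable_const_mul α)
  have hmB : Measurable fun t : ℝ => volume (Prod.mk (β * t) ⁻¹' B) :=
    (measurable_measure_prodMk_left hB).comp (measurable_const_mul β)
  rw [← lintegral_const_mul _ hmA, ← lintegral_const_mul _ hmB,
    ← lintegral_add_left (hmA.const_mul _)]
  refine lintegral_mono fun t => ?_
  by_cases ht : |t| ≤ 1
  · refine Pool.Agent.Helper86.LP.volume_weighted_le (measurable_prodMk_left hA)
      (measurable_prodMk_left hB) (hAn t ht) (hBn t ht) hl hm fun x hx y hy => ?_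
    have h1 := h _ hx _ hy
    simp only at h1
    have h2 : l * (α * t) + m * (β * t) = (l * α + m * β) * t := by ring
    rw [h2] at h1
    exact h1
  · have h1 : Prod.mk (α * t) ⁻¹' A = ∅ := by
      ext y
      simp only [mem_preimage, mem_empty_iff_false, iff_false]
      intro hy
      have h2 := hA1 _ hy
      simp only [abs_mul, abs_of_pos hα] at h2
      exact ht (le_of_mul_le_mul_left (by linarith) hα)
    have h2 : Prod.mk (β * t) ⁻¹' B = ∅ := by
      ext y
      simp only [mem_preimage, mem_empty_iff_false, iff_false]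
      intro hy
      have h2 := hB1 _ hy
      simp only [abs_mul, abs_of_pos hβ] at h2
      exact ht (le_of_mul_le_mul_left (by linarith) hβ)
    simp [h1, h2]

/-- The slice inequality for the second coordinate. -/
theorem slice_le' {A B C : Set (ℝ × ℝ)} (hA : MeasurableSet A) (hB : MeasurableSet B)
    (hC : MeasurableSet C) {α β l m : ℝ} (hα : 0 < α) (hβ : 0 < β) (hl : 0 < l) (hm : 0 < m)
    (hA1 : ∀ p ∈ A, |p.2| ≤ α) (hB1 : ∀ p ∈ B, |p.2| ≤ β)
    (hAn : ∀ t : ℝ, |t| ≤ 1 → ∃ y, (y, α * t) ∈ A) (hBn : ∀ t : ℝ, |t| ≤ 1 → ∃ y, (y, β * t) ∈ B)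
    (h : ∀ p ∈ A, ∀ q ∈ B, (l * p.1 + m * q.1, l * p.2 + m * q.2) ∈ C) :
    ENNReal.ofReal ((l * α + m * β) * l / α) * volume A +
      ENNReal.ofReal ((l * α + m * β) * m / β) * volume B ≤ volume C := by
  have hsw : ∀ S : Set (ℝ × ℝ), MeasurableSet S → volume (Prod.swap ⁻¹' S) = volume S := by
    intro S hS
    exact (Measure.measurePreserving_swap (μ := (volume : Measure ℝ))
      (ν := (volume : Measure ℝ))).measure_preimage hS.nullMeasurableSet
  rw [← hsw A hA, ← hsw B hB, ← hsw C hC]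
  exact slice_le (measurable_swap hA) (measurable_swap hB) (measurable_swap hC) hα hβ hl hm
    (fun p hp => hA1 _ hp) (fun p hp => hB1 _ hp) (fun t ht => hAn t ht) (fun t ht => hBn t ht)
    (fun p hp q hq => h _ hp _ hq)

end Pool.Agent.Helper36.LB3
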