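import Mathlib
import Pool.Agent.Helper96.LB3.Stmts
import Pool.Agent.Helper36.LB3.Slice

/-!
The projection inequality for bodies in `ℝ² × ℝ` when the strips `k` and `l` are the coordinate
strips and have the extreme ratios.
-/

open MeasureTheory Set
open scoped ENNReal

namespace Pool.Agent.Helper36.LB3

open Pool.Agent.Helper96.LB3

variable {ι : Type}

/-- The projection. -/
def PR (b1 b2 q h : ι → ℝ) : Set (ℝ × ℝ) :=
  {y | ∃ z : ℝ, ∀ u, |b1 u * y.1 + b2 u * y.2 + q u * z| ≤ h u}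

theorem measurableSet_PR (b1 b2 q h : ι → ℝ) : MeasurableSet (PR b1 b2 q h) := by
  have hcl : IsClosed {x : (ℝ × ℝ) × ℝ | ∀ u, |b1 u * x.1.1 + b2 u * x.1.2 + q u * x.2| ≤ h u} := by
    rw [show {x : (ℝ × ℝ) × ℝ | ∀ u, |b1 u * x.1.1 + b2 u * x.1.2 + q u * x.2| ≤ h u}
      = ⋂ u, {x : (ℝ × ℝ) × ℝ | |b1 u * x.1.1 + b2 u * x.1.2 + q u * x.2| ≤ h u} by
        ext x; simp]
    exact isClosed_iInter fun u => isClosed_le (by fun_prop) continuous_const
  have h1 : PR b1 b2 q h = ⋃ n : ℕ, Prod.fst ''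
      ({x : (ℝ × ℝ) × ℝ | ∀ u, |b1 u * x.1.1 + b2 u * x.1.2 + q u * x.2| ≤ h u} ∩
        Metric.closedBall 0 n) := by
    ext y
    simp only [PR, mem_ofPred_eq, mem_iUnion, mem_image, mem_inter_iff, Metric.mem_closedBall,
      dist_zero_right, Prod.exists, exists_and_right, exists_eq_right]
    constructor
    · rintro ⟨z, hz⟩
      obtain ⟨n, hn⟩ := exists_nat_ge ‖(y, z)‖
      exact ⟨n, z, hz, hn⟩
    · rintro ⟨n, z, hz, -⟩
      exact ⟨z, hz⟩
  rw [h1]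
  refine MeasurableSet.iUnion fun n => ?_
  have hc : IsCompact ({x : (ℝ × ℝ) × ℝ | ∀ u, |b1 u * x.1.1 + b2 u * x.1.2 + q u * x.2| ≤ h u} ∩
        Metric.closedBall 0 n) := (isCompact_closedBall _ _).inter_left hcl
  exact (hc.image continuous_fst).measurableSet

theorem PR_smul {b1 b2 q h : ι → ℝ} (h0 : ∀ u, 0 < h u) {y : ℝ × ℝ} (hy : y ∈ PR b1 b2 q h)
    {t : ℝ} (ht : |t| ≤ 1) : (y.1 * t, y.2 * t) ∈ PR b1 b2 q h := by
  obtain ⟨z, hz⟩ := hy
  refine ⟨z * t, fun u => ?_⟩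
  have h1 : b1 u * (y.1 * t) + b2 u * (y.2 * t) + q u * (z * t)
      = (b1 u * y.1 + b2 u * y.2 + q u * z) * t := by ring
  simp only [h1, abs_mul]
  calc |b1 u * y.1 + b2 u * y.2 + q u * z| * |t| ≤ h u * 1 :=
        mul_le_mul (hz u) ht (abs_nonneg _) (h0 u).le
    _ = h u := mul_one _

/-- The pointwise inequality between the heights. -/
theorem height_le {P M a b : ℝ} (hP : 0 < P) (hM : 0 < M) (ha : 0 < a) (hb : 0 < b)
    (h1 : P ≤ a ^ 2 * M) (h2 : b ^ 2 * M ≤ P) :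
    1 / (a + b) * P + a * b / (a + b) * M ≤ √(P * M) := by
  set x := √P with hx
  set y := √M with hy
  have hx0 : 0 < x := Real.sqrt_pos.2 hP
  have hy0 : 0 < y := Real.sqrt_pos.2 hM
  have hPx : P = x ^ 2 := (Real.sq_sqrt hP.le).symm
  have hMy : M = y ^ 2 := (Real.sq_sqrt hM.le).symm
  have hs : √(P * M) = x * y := by rw [Real.sqrt_mul hP.le]
  have h3 : x ≤ a * y := by
    rw [hPx, hMy, ← mul_pow] at h1
    exact (sq_le_sq₀ hx0.le (by positivity)).1 h1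
  have h4 : b * y ≤ x := by
    rw [hPx, hMy, ← mul_pow] at h2
    exact (sq_le_sq₀ (by positivity) hx0.le).1 h2
  rw [hs, hPx, hMy]
  have h5 : 1 / (a + b) * x ^ 2 + a * b / (a + b) * y ^ 2 = (x ^ 2 + a * b * y ^ 2) / (a + b) := by
    field_simp
  rw [h5, div_le_iff₀ (by positivity)]
  nlinarith [mul_nonneg (sub_nonneg.2 h3) (sub_nonneg.2 h4)]

/-- PL3. -/
theorem st_PL3 : ST_PL3 := by
  intro ι _ b1 b2 q hp hm k l hp0 hm0 hb1k hb2k hqk hb1l hb2l hql hmax hmin hpk hpl hmk hml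
  change (volume : Measure (ℝ × ℝ)).real (PR b1 b2 q hp) *
      (volume : Measure (ℝ × ℝ)).real (PR b1 b2 q hm) ≤
      ((volume : Measure (ℝ × ℝ)).real (PR b1 b2 q (gm hp hm))) ^ 2
  set a := √(hp k / hm k) with ha
  set b := √(hp l / hm l) with hb
  have ha0 : 0 < a := Real.sqrt_pos.2 (div_pos (hp0 k) (hm0 k))
  have hb0 : 0 < b := Real.sqrt_pos.2 (div_pos (hp0 l) (hm0 l))
  have ha2 : a ^ 2 = hp k / hm k := Real.sq_sqrt (div_pos (hp0 k) (hm0 k)).le
  have hb2 : b ^ 2 = hp l / hm l := Real.sq_sqrt (div_pos (hp0 l) (hm0 l)).le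
  have hgm0 : ∀ u, 0 < gm hp hm u := fun u => Real.sqrt_pos.2 (mul_pos (hp0 u) (hm0 u))
  -- projections lie in the box
  have hbox : ∀ h : ι → ℝ, ∀ p ∈ PR b1 b2 q h, |p.1| ≤ h k ∧ |p.2| ≤ h l := by
    rintro h p ⟨z, hz⟩
    have h1 := hz k
    have h2 := hz l
    rw [hb1k, hb2k, hqk] at h1
    rw [hb1l, hb2l, hql] at h2
    constructor
    · simpa using h1
    · simpa using h2
  have hfin : ∀ h : ι → ℝ, volume (PR b1 b2 q h) ≠ ∞ := by
    intro h
    have h1 : PR b1 b2 q h ⊆ Icc (-(h k)) (h k) ×ˢ Icc (-(h l)) (h l) := by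
      intro p hp'
      have h2 := hbox h p hp'
      exact ⟨abs_le.1 h2.1, abs_le.1 h2.2⟩
    exact ((isCompact_Icc.prod isCompact_Icc).measure_lt_top.trans_le' (measure_mono h1)).ne
  have hk1 : ∀ h : ι → ℝ, (∀ u, 0 < h u) →
      (∃ y1 y2 z : ℝ, (∀ u, |b1 u * y1 + b2 u * y2 + q u * z| ≤ h u) ∧ y1 = h k) →
      ∀ t : ℝ, |t| ≤ 1 → ∃ y, (h k * t, y) ∈ PR b1 b2 q h := by
    rintro h h0 ⟨y1, y2, z, hz, hy⟩ t ht
    refine ⟨y2 * t, ?_⟩
    rw [← hy]
    exact PR_smul h0 (y := (y1, y2)) ⟨z, hz⟩ ht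
  have hl1 : ∀ h : ι → ℝ, (∀ u, 0 < h u) →
      (∃ y1 y2 z : ℝ, (∀ u, |b1 u * y1 + b2 u * y2 + q u * z| ≤ h u) ∧ y2 = h l) →
      ∀ t : ℝ, |t| ≤ 1 → ∃ y, (y, h l * t) ∈ PR b1 b2 q h := by
    rintro h h0 ⟨y1, y2, z, hz, hy⟩ t ht
    refine ⟨y1 * t, ?_⟩
    rw [← hy]
    exact PR_smul h0 (y := (y1, y2)) ⟨z, hz⟩ ht
  have hl0 : 0 < 1 / (a + b) := by positivity
  have hm0' : 0 < a * b / (a + b) := by positivity
  -- the inclusion
  have hinc : ∀ p ∈ PR b1 b2 q hp, ∀ r ∈ PR b1 b2 q hm,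
      (1 / (a + b) * p.1 + a * b / (a + b) * r.1, 1 / (a + b) * p.2 + a * b / (a + b) * r.2) ∈
        PR b1 b2 q (gm hp hm) := by
    rintro p ⟨z, hz⟩ r ⟨w, hw⟩
    refine ⟨1 / (a + b) * z + a * b / (a + b) * w, fun u => ?_⟩
    have h1 : b1 u * (1 / (a + b) * p.1 + a * b / (a + b) * r.1)
        + b2 u * (1 / (a + b) * p.2 + a * b / (a + b) * r.2)
        + q u * (1 / (a + b) * z + a * b / (a + b) * w)
        = 1 / (a + b) * (b1 u * p.1 + b2 u * p.2 + q u * z)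
          + a * b / (a + b) * (b1 u * r.1 + b2 u * r.2 + q u * w) := by ring
    simp only [h1]
    refine (abs_add_le _ _).trans ?_
    rw [abs_mul, abs_mul, abs_of_pos hl0, abs_of_pos hm0']
    refine (add_le_add (mul_le_mul_of_nonneg_left (hz u) hl0.le)
      (mul_le_mul_of_nonneg_left (hw u) hm0'.le)).trans ?_
    refine height_le (hp0 u) (hm0 u) ha0 hb0 ?_ ?_
    · rw [ha2, div_mul_eq_mul_div, le_div_iff₀ (hm0 k)]
      exact hmax u
    · rw [hb2, div_mul_eq_mul_div, div_le_iff₀ (hm0 l)]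
      exact hmin u
  have hmP := measurableSet_PR b1 b2 q hp
  have hmM := measurableSet_PR b1 b2 q hm
  have hmG := measurableSet_PR b1 b2 q (gm hp hm)
  have e1 := slice_le hmP hmM hmG (hp0 k) (hm0 k) hl0 hm0' (fun p h => (hbox hp p h).1)
    (fun p h => (hbox hm p h).1) (hk1 hp hp0 hpk) (hk1 hm hm0 hmk) hinc
  have e2 := slice_le' hmP hmM hmG (hp0 l) (hm0 l) hl0 hm0' (fun p h => (hbox hp p h).2)
    (fun p h => (hbox hm p h).2) (hl1 hp hp0 hpl) (hl1 hm hm0 hml) hinc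
  have hreal : ∀ c1 c2 : ℝ, 0 ≤ c1 → 0 ≤ c2 →
      ENNReal.ofReal c1 * volume (PR b1 b2 q hp) + ENNReal.ofReal c2 * volume (PR b1 b2 q hm) ≤
        volume (PR b1 b2 q (gm hp hm)) →
      c1 * (volume : Measure (ℝ × ℝ)).real (PR b1 b2 q hp) +
        c2 * (volume : Measure (ℝ × ℝ)).real (PR b1 b2 q hm) ≤
        (volume : Measure (ℝ × ℝ)).real (PR b1 b2 q (gm hp hm)) := by
    intro c1 c2 h1 h2 h3
    have h4 := ENNReal.toReal_mono (hfin _) h3
    rw [ENNReal.toReal_add (ENNReal.mul_ne_top ENNReal.ofReal_ne_top (hfin _))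
      (ENNReal.mul_ne_top ENNReal.ofReal_ne_top (hfin _)), ENNReal.toReal_mul,
      ENNReal.toReal_mul, ENNReal.toReal_ofReal h1, ENNReal.toReal_ofReal h2] at h4
    exact h4
  have hPk := hp0 k
  have hMk := hm0 k
  have hPl := hp0 l
  have hMl := hm0 l
  have f1 := hreal _ _ (by positivity) (by positivity) e1
  have f2 := hreal _ _ (by positivity) (by positivity) e2
  set A := (volume : Measure (ℝ × ℝ)).real (PR b1 b2 q hp) with hA
  set B := (volume : Measure (ℝ × ℝ)).real (PR b1 b2 q hm) with hB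
  set C := (volume : Measure (ℝ × ℝ)).real (PR b1 b2 q (gm hp hm)) with hC
  have hA0 : 0 ≤ A := measureReal_nonneg
  have hB0 : 0 ≤ B := measureReal_nonneg
  have hPk' : hp k = a ^ 2 * hm k := by rw [ha2]; field_simp
  have hPl' : hp l = b ^ 2 * hm l := by rw [hb2]; field_simp
  have g1 : (1 / (a + b) * hp k + a * b / (a + b) * hm k) * (1 / (a + b)) / hp k
      = 1 / (a * (a + b)) := by
    rw [hPk']; field_simp
  have g2 : (1 / (a + b) * hp k + a * b / (a + b) * hm k) * (a * b / (a + b)) / hm k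
      = a ^ 2 * b / (a + b) := by
    rw [hPk']; field_simp
  have g3 : (1 / (a + b) * hp l + a * b / (a + b) * hm l) * (1 / (a + b)) / hp l
      = 1 / (b * (a + b)) := by
    rw [hPl']; field_simp; ring
  have g4 : (1 / (a + b) * hp l + a * b / (a + b) * hm l) * (a * b / (a + b)) / hm l
      = a * b ^ 2 / (a + b) := by
    rw [hPl']; field_simp; ring
  rw [g1, g2] at f1
  rw [g3, g4] at f2
  have f3 : A / (a * b) + a * b * B ≤ 2 * C := by
    have h1 : A / (a * b) + a * b * B = (1 / (a * (a + b)) * A + a ^ 2 * b / (a + b) * B)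
        + (1 / (b * (a + b)) * A + a * b ^ 2 / (a + b) * B) := by
      field_simp
      ring
    rw [h1]
    linarith
  have hab : 0 < a * b := by positivity
  have f4 : A * B = (A / (a * b)) * (a * b * B) := by field_simp
  have f5 : 0 ≤ A / (a * b) := by positivity
  have f6 : 0 ≤ a * b * B := by positivity
  rw [f4]
  nlinarith [sq_nonneg (A / (a * b) - a * b * B)]

end Pool.Agent.Helper36.LB3
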